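import Pool.Agent.helper94.FM.Spec

set_option autoImplicit false

/-!
# FM (MP_16912e_nt), row V2: the solutions for one field
-/

open Finset Filter Topology NumberField Module

namespace Pool.Agent.FM

open Pool.Agent.helper9.Tors

variable {K : Type} [Field K] [NumberField K]

/-- the coordinate which vanishes on the rational integers -/
noncomputable def V2_b (e : Basis (Fin 2) ℤ (𝓞 K)) (α : 𝓞 K) : ℤ := (e.toMatrix ![1, α]).det

omit [NumberField K] in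
theorem V2_b_eq (e : Basis (Fin 2) ℤ (𝓞 K)) (α : 𝓞 K) :
    V2_b e α = e.repr 1 0 * e.repr α 1 - e.repr α 0 * e.repr 1 1 := by
  rw [V2_b, Matrix.det_fin_two]
  simp [Basis.toMatrix_apply]

omit [NumberField K] in
theorem V2_b_sub (e : Basis (Fin 2) ℤ (𝓞 K)) (α β : 𝓞 K) :
    V2_b e (α - β) = V2_b e α - V2_b e β := by
  simp only [V2_b_eq, map_sub, Finsupp.sub_apply]
  ring

theorem V2_zero (h2 : finrank ℚ K = 2) (e : Basis (Fin 2) ℤ (𝓞 K)) (α : 𝓞 K)
    (hb : V2_b e α = 0) : ∃ a : ℤ, α = (a : 𝓞 K) := by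
  obtain ⟨t, n, h1, hn, h3⟩ := quad_rel' h2 e α
  have hb' : (e.toMatrix ![1, α]).det = 0 := hb
  rw [hb'] at h3
  have h4 : t ^ 2 = 4 * n := by linarith
  have h5 : (2 : ℤ) ∣ t := by
    have : (2 : ℤ) ∣ t ^ 2 := ⟨2 * n, by rw [h4]; ring⟩
    exact Int.prime_two.dvd_of_dvd_pow this
  obtain ⟨a, ha⟩ := h5
  refine ⟨a, ?_⟩
  have h6 : n = a ^ 2 := by rw [ha] at h4; linarith [h4, (by ring : (2 * a) ^ 2 = 4 * a ^ 2)]
  have h7 : (α - (a : 𝓞 K)) ^ 2 = 0 := by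
    rw [ha, h6] at h1
    push_cast at h1
    linear_combination h1
  have := pow_eq_zero_iff (two_ne_zero) |>.mp h7
  exact sub_eq_zero.mp this

theorem V2_unit (h2 : finrank ℚ K = 2) (hD : discr K < -4) (u : (𝓞 K)ˣ) :
    (u : 𝓞 K) = 1 ∨ (u : 𝓞 K) = -1 := by
  have hD0 : discr K < 0 := by linarith
  have h7 : (Algebra.norm ℤ (u : 𝓞 K)).natAbs = 1 := by
    have h8 : IsUnit (Algebra.norm ℤ (u : 𝓞 K)) := (u.isUnit).map _
    exact Int.isUnit_iff_natAbs_eq.mp h8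
  rcases norm_ge h2 hD0 (u : 𝓞 K) with ⟨c, hc⟩ | hge
  · rw [hc, norm_int h2] at h7
    have h9 : (0 : ℤ) ≤ c ^ 2 := sq_nonneg c
    have h10 : ((c ^ 2).natAbs : ℤ) = c ^ 2 := Int.natAbs_of_nonneg h9
    rw [h7] at h10
    have h11 : c = 1 ∨ c = -1 := by
      have : (c - 1) * (c + 1) = 0 := by
        push_cast at h10
        linear_combination -h10
      rcases mul_eq_zero.mp this with h | h
      · left; linarith
      · right; linarith
    rcases h11 with rfl | rfl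
    · left; rw [hc]; simp
    · right; rw [hc]; simp
  · exfalso
    have h11 : Algebra.norm ℤ (u : 𝓞 K) ≤ 1 := by
      have : ((Algebra.norm ℤ (u : 𝓞 K)).natAbs : ℤ) = 1 := by rw [h7]; norm_num
      rw [← this]
      exact Int.le_natAbs
    linarith

theorem V2_same (h2 : finrank ℚ K = 2) (hD : discr K < -4) {p m x m' x' : ℕ} {γ γ' : 𝓞 K}
    {I J J' : Ideal (𝓞 K)} (hp : p ≠ 0) (hm : 0 < m)
    (h : IsRep p m x γ I J) (h' : IsRep p m' x' γ' I J')
    (hlt : x ^ 2 < 4 * m ^ p) (hlt' : x' ^ 2 < 4 * m' ^ p) : m = m' ∧ x = x' := by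
  have e1 : m = m' := by rw [← h.absNorm_eq h2 hp hlt, h'.absNorm_eq h2 hp hlt']
  subst e1
  refine ⟨rfl, ?_⟩
  have h6 : Ideal.span {γ} = Ideal.span {γ'} := by rw [← h.powI, ← h'.powI]
  rw [Ideal.span_singleton_eq_span_singleton] at h6
  obtain ⟨u, hu⟩ := h6
  have hm0 : (m : 𝓞 K) ^ p ≠ 0 := by
    have : (m : 𝓞 K) ≠ 0 := by exact_mod_cast hm.ne'
    exact pow_ne_zero _ this
  have e1 := h.eq
  have e2 := h'.eq
  have hg0 : γ ≠ 0 := by
    intro h0
    rw [h0] at e1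
    apply hm0
    linear_combination e1
  rcases V2_unit h2 hD u with h7 | h7
  · rw [h7, mul_one] at hu
    rw [← hu] at e2
    have : ((x : 𝓞 K) - x') * γ = 0 := by linear_combination e2 - e1
    rcases mul_eq_zero.mp this with h8 | h8
    · have : (x : 𝓞 K) = x' := sub_eq_zero.mp h8
      exact_mod_cast this
    · exact absurd h8 hg0
  · rw [h7, mul_neg_one] at hu
    rw [← hu] at e2
    have : ((x : 𝓞 K) + x') * γ = 0 := by linear_combination e2 - e1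
    rcases mul_eq_zero.mp this with h8 | h8
    · have h9 : ((x + x' : ℕ) : 𝓞 K) = 0 := by push_cast; exact h8
      have h10 : x + x' = 0 := by exact_mod_cast h9
      omega
    · exact absurd h8 hg0

/-- the count of the pairs -/
theorem V2_count {ι : Type} (F : Finset ι) (b t : ι → ℤ) (B T m : ℕ) (hm : 0 < m)
    (hb0 : ∀ s ∈ F, b s ≠ 0) (hb : ∀ s ∈ F, |b s| ≤ B) (ht : ∀ s ∈ F, |t s| ≤ T)
    (hinj : ∀ s ∈ F, ∀ s' ∈ F, b s = b s' → (2 * (m : ℤ)) ∣ t s - t s' ∧ (t s = t s' → s = s')) :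
    F.card ≤ 2 * B * (T / m + 1) := by
  classical
  have hm2 : (0 : ℤ) < 2 * (m : ℤ) := by positivity
  obtain ⟨w, hw⟩ : ∃ w : ℕ, w = T / m := ⟨_, rfl⟩
  rw [← hw]
  have h1 : F.card ≤ (((Icc (-(B : ℤ)) B).erase 0) ×ˢ (Icc (0 : ℤ) (w : ℤ))).card := by
    refine Finset.card_le_card_of_injOn (fun s => (b s, (t s + T) / (2 * (m : ℤ)))) ?_ ?_
    · intro s hs
      have hs' : s ∈ F := hs
      have h3 := abs_le.1 (hb s hs')
      have h4 := abs_le.1 (ht s hs')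
      refine Finset.mem_coe.2 (Finset.mem_product.2 ⟨?_, ?_⟩)
      · exact Finset.mem_erase.2 ⟨hb0 s hs', Finset.mem_Icc.2 ⟨h3.1, h3.2⟩⟩
      · refine Finset.mem_Icc.2 ⟨?_, ?_⟩
        · exact Int.ediv_nonneg (by linarith [h4.1]) hm2.le
        · show (t s + T) / (2 * (m : ℤ)) ≤ _
          rw [hw, Int.natCast_div]
          calc (t s + T) / (2 * (m : ℤ)) ≤ (2 * (T : ℤ)) / (2 * (m : ℤ)) :=
                Int.ediv_le_ediv hm2 (by linarith [h4.2])
            _ = (T : ℤ) / (m : ℤ) := Int.mul_ediv_mul_of_pos _ _ (by norm_num)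
    · intro s hs s' hs' h
      have hs1 : s ∈ F := hs
      have hs2 : s' ∈ F := hs'
      have h3 : b s = b s' := congrArg Prod.fst h
      have h4 : (t s + T) / (2 * (m : ℤ)) = (t s' + T) / (2 * (m : ℤ)) := congrArg Prod.snd h
      obtain ⟨h5, h6⟩ := hinj s hs1 s' hs2 h3
      apply h6
      have h7 : (t s + T) % (2 * (m : ℤ)) = (t s' + T) % (2 * (m : ℤ)) := by
        apply Int.emod_emod_of_dvd _ (dvd_refl _) |>.symm.trans
        rw [Int.emod_emod_of_dvd _ (dvd_refl _)]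
        apply Int.ModEq.symm
        exact (Int.modEq_iff_dvd.2 (by
          have : t s + T - (t s' + T) = t s - t s' := by ring
          rw [this]
          exact h5))
      have h8 := Int.mul_ediv_add_emod (t s + T) (2 * (m : ℤ))
      have h9 := Int.mul_ediv_add_emod (t s' + T) (2 * (m : ℤ))
      rw [h4, h7] at h8
      linarith
  refine h1.trans ?_
  rw [Finset.card_product, Finset.card_erase_of_mem (Finset.mem_Icc.2 ⟨by simp, by simp⟩),
    Int.card_Icc, Int.card_Icc]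
  refine Nat.mul_le_mul ?_ ?_
  · omega
  · omega

theorem V2_real (M m B T : ℕ) (δ : ℝ) (hδ : 0 < δ) (hm : 0 < m) (hmM : m ≤ M)
    (hB : (B : ℝ) ≤ 2 * √(M * m) / √δ) (hT : (T : ℝ) ≤ 2 * √(M * m)) :
    ((2 * B * (T / m + 1) : ℕ) : ℝ) ≤ 12 * (M / √δ) := by
  have hm0 : (0 : ℝ) < m := by exact_mod_cast hm
  have hM0 : (m : ℝ) ≤ M := by exact_mod_cast hmM
  have hd : 0 < √δ := Real.sqrt_pos.2 hδ
  obtain ⟨r, hr⟩ : ∃ r, r = √((M : ℝ) * m) := ⟨_, rfl⟩
  rw [← hr] at hB hT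
  have hr0 : 0 ≤ r := by rw [hr]; exact Real.sqrt_nonneg _
  have hr2 : r * r = M * m := by
    rw [hr]
    exact Real.mul_self_sqrt (by positivity)
  have hmr : (m : ℝ) ≤ r := by
    rw [hr]
    exact Real.le_sqrt_of_sq_le (by nlinarith)
  have h1 : ((T / m : ℕ) : ℝ) ≤ 2 * r / m := by
    refine le_trans Nat.cast_div_le ?_
    exact div_le_div_of_nonneg_right hT hm0.le
  have h2 : ((T / m : ℕ) : ℝ) + 1 ≤ 3 * r / m := by
    have : (1 : ℝ) ≤ r / m := by rw [le_div_iff₀ hm0]; linarith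
    have e : 3 * r / m = 2 * r / m + r / m := by ring
    rw [e]
    linarith
  push_cast
  calc 2 * (B : ℝ) * (((T / m : ℕ) : ℝ) + 1) ≤ 2 * (2 * r / √δ) * (3 * r / m) := by
        refine mul_le_mul (by linarith) h2 (by positivity) (by positivity)
    _ = 12 * (r * r / (m * √δ)) := by
        field_simp
        ring
    _ = 12 * (M / √δ) := by
        rw [hr2]
        field_simp

theorem V2_fibre (hV1 : V1_stmt) (h2 : finrank ℚ K = 2) (hD : discr K < -4) (p : ℕ) (hp : p ≠ 0)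
    (M : ℕ) (F : Finset (ℕ × ℕ)) (γ : ℕ × ℕ → 𝓞 K) (I J : ℕ × ℕ → Ideal (𝓞 K))
    (hF : ∀ s ∈ F, 1 < s.1 ∧ s.1 ≤ M ∧ Nat.Coprime s.2 s.1 ∧ s.2 ^ 2 < 4 * s.1 ^ p ∧
      IsRep p s.1 s.2 (γ s) (I s) (J s))
    (s0 : ℕ × ℕ) (hs0 : s0 ∈ F) (hα : ∀ s ∈ F, ∃ α : 𝓞 K, I s * J s0 = Ideal.span {α}) :
    (F.card : ℝ) ≤ 2 + 12 * (M / √(-(discr K : ℤ) : ℝ)) := by
  classical
  have hD0 : discr K < 0 := by linarith
  choose! α hα using hα
  have hr : finrank ℤ (𝓞 K) = 2 := by rw [RingOfIntegers.rank, h2]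
  let e : Basis (Fin 2) ℤ (𝓞 K) := Module.finBasisOfFinrankEq ℤ (𝓞 K) hr
  obtain ⟨g1, g2, g3, g4, g5⟩ := hF s0 hs0
  have hm0 : 0 < s0.1 := by omega
  obtain ⟨v1, v2⟩ := hV1 K h2 hD0 p s0.1 s0.2 (γ s0) (I s0) (J s0) hp hm0 g5 g4 g3
  have hJ0 : J s0 ≠ 0 := nonZeroDivisors.ne_zero (g5.ne_zeroJ hm0)
  have hmem : ∀ s ∈ F, α s ∈ J s0 := by
    intro s hs
    have h3 : Ideal.span {α s} ≤ J s0 := by
      rw [← hα s hs]
      exact Ideal.mul_le.2 fun a _ b hb => (J s0).mul_mem_left a hb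
    exact h3 (Ideal.mem_span_singleton_self _)
  have hinj : ∀ s ∈ F, ∀ s' ∈ F, α s = α s' → s = s' := by
    intro s hs s' hs' h
    obtain ⟨a1, a2, a3, a4, a5⟩ := hF s hs
    obtain ⟨b1, b2, b3, b4, b5⟩ := hF s' hs'
    have h3 : I s * J s0 = I s' * J s0 := by rw [hα s hs, hα s' hs', h]
    have h4 : I s = I s' := mul_right_cancel₀ hJ0 h3
    rw [h4] at a5
    obtain ⟨c1, c2⟩ := V2_same h2 hD hp (by omega) a5 b5 a4 b4
    exact Prod.ext c1 c2
  have hrel : ∀ s ∈ F, ∃ t : ℤ, (α s) ^ 2 - (t : 𝓞 K) * α s + (((s.1 * s0.1 : ℕ) : ℤ) : 𝓞 K) = 0 ∧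
      t ^ 2 - 4 * ((s.1 * s0.1 : ℕ) : ℤ) = V2_b e (α s) ^ 2 * discr K := by
    intro s hs
    obtain ⟨a1, a2, a3, a4, a5⟩ := hF s hs
    obtain ⟨t, n, h3, h4, h5⟩ := quad_rel' h2 e (α s)
    have h6 : (Algebra.norm ℤ (α s)).natAbs = s.1 * s0.1 := by
      rw [← Ideal.absNorm_span_singleton, ← hα s hs, map_mul, a5.absNorm_eq h2 hp a4,
        g5.absNorm_eq' h2 hp hm0 g4]
    have h7 : 0 ≤ n := by
      have : (e.toMatrix ![1, α s]).det ^ 2 * discr K ≤ 0 :=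
        mul_nonpos_of_nonneg_of_nonpos (sq_nonneg _) hD0.le
      nlinarith [sq_nonneg t]
    have h8 : n = ((s.1 * s0.1 : ℕ) : ℤ) := by
      rw [h4] at h6
      rw [← h6, Int.natAbs_of_nonneg h7]
    rw [h8] at h3 h5
    exact ⟨t, h3, h5⟩
  choose! t ht using hrel
  -- the rational ones
  have hF0 : (F.filter fun s => V2_b e (α s) = 0).card ≤ 2 := by
    have h3 : (F.filter fun s => V2_b e (α s) = 0).card ≤
        ({(s0.1 : 𝓞 K), -(s0.1 : 𝓞 K)} : Finset (𝓞 K)).card := by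
      refine Finset.card_le_card_of_injOn α ?_ ?_
      · intro s hs
        obtain ⟨hs1, hs2⟩ := Finset.mem_filter.1 (Finset.mem_coe.1 hs)
        obtain ⟨a1, a2, a3, a4, a5⟩ := hF s hs1
        obtain ⟨a, ha⟩ := V2_zero h2 e (α s) hs2
        have h4 : (s0.1 : ℤ) ∣ a := v1 a (by rw [← ha]; exact hmem s hs1)
        obtain ⟨k, hk⟩ := h4
        have h5 : I s = Ideal.span {(k : 𝓞 K)} * I s0 := by
          apply mul_right_cancel₀ hJ0
          rw [hα s hs1, mul_assoc, g5.mul, Ideal.span_singleton_mul_span_singleton, ha, hk]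
          congr 1
          push_cast
          rw [mul_comm]
        obtain ⟨-, w2⟩ := hV1 K h2 hD0 p s.1 s.2 (γ s) (I s) (J s) hp (by omega) a5 a4 a3
        have h6 := w2 k (I s0) h5
        rw [Finset.mem_coe, Finset.mem_insert, Finset.mem_singleton, ha, hk]
        rcases Int.isUnit_iff.mp h6 with rfl | rfl
        · left; push_cast; ring
        · right; push_cast; ring
      · intro s hs s' hs' h
        exact hinj s (Finset.mem_filter.1 (Finset.mem_coe.1 hs)).1 s'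
          (Finset.mem_filter.1 (Finset.mem_coe.1 hs')).1 h
    exact h3.trans Finset.card_le_two
  -- the others
  obtain ⟨δ, hδ⟩ : ∃ δ : ℝ, δ = -((discr K : ℤ) : ℝ) := ⟨_, rfl⟩
  have hδ0 : 0 < δ := by
    rw [hδ]
    have : ((discr K : ℤ) : ℝ) < 0 := by exact_mod_cast hD0
    linarith
  have hd : 0 < √δ := Real.sqrt_pos.2 hδ0
  obtain ⟨B, hB⟩ : ∃ B : ℕ, B = ⌊2 * √((M : ℝ) * s0.1) / √δ⌋₊ := ⟨_, rfl⟩
  obtain ⟨T, hT⟩ : ∃ T : ℕ, T = ⌊2 * √((M : ℝ) * s0.1)⌋₊ := ⟨_, rfl⟩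
  have hkey : ∀ s ∈ F, ((t s : ℤ) : ℝ) ^ 2 + δ * ((V2_b e (α s) : ℤ) : ℝ) ^ 2 ≤
      4 * ((M : ℝ) * s0.1) := by
    intro s hs
    have h3 := (ht s hs).2
    have h4 : (((t s ^ 2 - 4 * ((s.1 * s0.1 : ℕ) : ℤ) : ℤ)) : ℝ) =
        ((V2_b e (α s) ^ 2 * discr K : ℤ) : ℝ) := by rw [h3]
    push_cast at h4
    have h5 : (s.1 : ℝ) ≤ M := by exact_mod_cast (hF s hs).2.1
    have h6 : (s.1 : ℝ) * s0.1 ≤ M * s0.1 := mul_le_mul_of_nonneg_right h5 (Nat.cast_nonneg _)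
    rw [hδ]
    linarith
  have hsq : (2 * √((M : ℝ) * s0.1)) ^ 2 = 4 * ((M : ℝ) * s0.1) := by
    rw [mul_pow, Real.sq_sqrt (by positivity)]
    norm_num
  have hF1 : (F.filter fun s => ¬ V2_b e (α s) = 0).card ≤ 2 * B * (T / s0.1 + 1) := by
    refine V2_count _ (fun s => V2_b e (α s)) t B T s0.1 hm0 ?_ ?_ ?_ ?_
    · intro s hs
      exact (Finset.mem_filter.1 hs).2
    · intro s hs
      have hs1 := (Finset.mem_filter.1 hs).1
      have h3 := hkey s hs1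
      have h4 : |((V2_b e (α s) : ℤ) : ℝ)| ≤ 2 * √((M : ℝ) * s0.1) / √δ := by
        rw [le_div_iff₀ hd]
        have h5 : |((V2_b e (α s) : ℤ) : ℝ) * √δ| ≤ 2 * √((M : ℝ) * s0.1) := by
          refine abs_le_of_sq_le_sq ?_ (by positivity)
          rw [mul_pow, Real.sq_sqrt hδ0.le, hsq]
          nlinarith [sq_nonneg ((t s : ℤ) : ℝ)]
        rwa [abs_mul, abs_of_pos hd] at h5
      have h5 : (V2_b e (α s)).natAbs ≤ B := by
        rw [hB]
        refine Nat.le_floor ?_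
        rw [Nat.cast_natAbs, Int.cast_abs]
        exact h4
      rw [Int.abs_eq_natAbs]
      exact_mod_cast h5
    · intro s hs
      have hs1 := (Finset.mem_filter.1 hs).1
      have h3 := hkey s hs1
      have h4 : |((t s : ℤ) : ℝ)| ≤ 2 * √((M : ℝ) * s0.1) := by
        refine abs_le_of_sq_le_sq ?_ (by positivity)
        rw [hsq]
        nlinarith [mul_nonneg hδ0.le (sq_nonneg ((V2_b e (α s) : ℤ) : ℝ))]
      have h5 : (t s).natAbs ≤ T := by
        rw [hT]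
        refine Nat.le_floor ?_
        rw [Nat.cast_natAbs, Int.cast_abs]
        exact h4
      rw [Int.abs_eq_natAbs]
      exact_mod_cast h5
    · intro s hs s' hs' hbb
      obtain ⟨hs1, hs2⟩ := Finset.mem_filter.1 hs
      obtain ⟨hs1', hs2'⟩ := Finset.mem_filter.1 hs'
      have h3 : V2_b e (α s - α s') = 0 := by
        rw [V2_b_sub]
        have : V2_b e (α s) = V2_b e (α s') := hbb
        rw [this, sub_self]
      obtain ⟨a, ha⟩ := V2_zero h2 e _ h3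
      have h4 : (s0.1 : ℤ) ∣ a := v1 a (by
        rw [← ha]
        exact (J s0).sub_mem (hmem s hs1) (hmem s' hs1'))
      obtain ⟨r1, r2⟩ := ht s hs1
      obtain ⟨r1', r2'⟩ := ht s' hs1'
      have hneg : (t s) ^ 2 - 4 * ((s.1 * s0.1 : ℕ) : ℤ) < 0 := by
        rw [r2]
        have : 0 < V2_b e (α s) ^ 2 := by positivity
        nlinarith
      have h5 : t s - 2 * a - t s' = 0 := by
        refine irrational_of (α s) (t s) ((s.1 * s0.1 : ℕ) : ℤ) r1 hneg _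
          (((s.1 * s0.1 : ℕ) : ℤ) - a ^ 2 - t s' * a - ((s'.1 * s0.1 : ℕ) : ℤ)) ?_
        have h6 : α s' = α s - (a : 𝓞 K) := by rw [← ha]; ring
        rw [h6] at r1'
        push_cast at r1 r1' ⊢
        linear_combination r1' - r1
      refine ⟨?_, fun htt => ?_⟩
      · have h6 : t s - t s' = 2 * a := by linarith
        rw [h6]
        exact mul_dvd_mul_left 2 h4
      · have ha0 : a = 0 := by linarith
        rw [ha0, Int.cast_zero] at ha
        exact hinj s hs1 s' hs1' (sub_eq_zero.1 ha)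
  have hreal := V2_real M s0.1 B T δ hδ0 hm0 g2 (by
    rw [hB]
    exact Nat.floor_le (by positivity)) (by
    rw [hT]
    exact Nat.floor_le (by positivity))
  have hsum : F.card = (F.filter fun s => V2_b e (α s) = 0).card +
      (F.filter fun s => ¬ V2_b e (α s) = 0).card :=
    (Finset.card_filter_add_card_filter_not _).symm
  rw [← hδ, hsum]
  push_cast
  have h3 : ((F.filter fun s => V2_b e (α s) = 0).card : ℝ) ≤ 2 := by exact_mod_cast hF0
  have h4 : ((F.filter fun s => ¬ V2_b e (α s) = 0).card : ℝ) ≤ ((2 * B * (T / s0.1 + 1) : ℕ) : ℝ) := by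
    exact_mod_cast hF1
  linarith

theorem V2 (hV1 : V1_stmt) : V2_stmt := by
  intro K _ _ h2 hD p hp S M hS
  classical
  have hrep : ∀ s ∈ S, ∃ (γ : 𝓞 K) (I J : Ideal (𝓞 K)), IsRep p s.1 s.2 γ I J := by
    intro s hs
    obtain ⟨h1, -, h3, -, b, hb⟩ := hS s hs
    exact exists_rep h2 p s.1 s.2 hp (by omega) h3 b hb
  choose! γ I J hIJ using hrep
  have hpos : ∀ s ∈ S, 0 < s.1 := fun s hs => by
    have := (hS s hs).1
    omega
  have hI : ∀ s ∈ S, I s ∈ nonZeroDivisors (Ideal (𝓞 K)) := fun s hs =>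
    (hIJ s hs).ne_zeroI (hpos s hs)
  obtain ⟨cl, hcl⟩ : ∃ cl : ℕ × ℕ → ClassGroup (𝓞 K), ∀ s (hs : s ∈ S),
      cl s = ClassGroup.mk0 ⟨I s, hI s hs⟩ :=
    ⟨fun s => if h : s ∈ S then ClassGroup.mk0 ⟨I s, hI s h⟩ else 1, fun s hs => dif_pos hs⟩
  have hclp : ∀ s ∈ S, cl s ^ p = 1 := by
    intro s hs
    rw [hcl s hs, ← map_pow]
    have : (⟨I s, hI s hs⟩ : nonZeroDivisors (Ideal (𝓞 K))) ^ p =
        ⟨I s ^ p, pow_mem (hI s hs) p⟩ := rfl
    rw [this, ClassGroup.mk0_eq_one_iff, (hIJ s hs).powI]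
    exact ⟨⟨γ s, rfl⟩⟩
  obtain ⟨C, hC⟩ : ∃ C : ℝ, C = (M : ℝ) / √(-(discr K : ℤ) : ℝ) := ⟨_, rfl⟩
  have hC0 : 0 ≤ C := by
    rw [hC]
    positivity
  have hfib : ∀ c ∈ S.image cl, ((S.filter fun s => cl s = c).card : ℝ) ≤ 2 + 12 * C := by
    intro c hc
    obtain ⟨s0, hs0, hs0c⟩ := Finset.mem_image.1 hc
    rw [hC]
    refine V2_fibre hV1 h2 hD p hp M _ γ I J ?_ s0 (Finset.mem_filter.2 ⟨hs0, hs0c⟩) ?_
    · intro s hs
      have hs1 := (Finset.mem_filter.1 hs).1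
      obtain ⟨a1, a2, a3, a4, -⟩ := hS s hs1
      exact ⟨a1, a2, a3, a4, hIJ s hs1⟩
    · intro s hs
      obtain ⟨hs1, hs2⟩ := Finset.mem_filter.1 hs
      have hJ' := (hIJ s0 hs0).ne_zeroJ (hpos s0 hs0)
      have hm0' : (s0.1 : 𝓞 K) ≠ 0 := by exact_mod_cast (hpos s0 hs0).ne'
      have h1 : ClassGroup.mk0 ⟨I s0, hI s0 hs0⟩ = (ClassGroup.mk0 ⟨J s0, hJ'⟩)⁻¹ :=
        ClassGroup.mk0_eq_mk0_inv_iff.mpr ⟨(s0.1 : 𝓞 K), hm0', (hIJ s0 hs0).mul⟩
      have h3 : ClassGroup.mk0 ⟨I s, hI s hs1⟩ = ClassGroup.mk0 ⟨I s0, hI s0 hs0⟩ := by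
        rw [← hcl s hs1, ← hcl s0 hs0, hs2, hs0c]
      rw [← h3] at h1
      obtain ⟨α, hα0, hα⟩ := ClassGroup.mk0_eq_mk0_inv_iff.mp h1
      exact ⟨α, hα⟩
  have hcard : (S.card : ℝ) ≤ (S.image cl).card * (2 + 12 * C) := by
    rw [Finset.card_eq_sum_card_image cl S]
    push_cast
    refine (Finset.sum_le_card_nsmul _ _ _ hfib).trans ?_
    rw [nsmul_eq_mul]
  have hfin : Finite {c : ClassGroup (𝓞 K) // c ^ p = 1} := inferInstance
  have himg : (S.image cl).card ≤ Nat.card {c : ClassGroup (𝓞 K) // c ^ p = 1} := by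
    have h1 : ∀ c ∈ S.image cl, c ^ p = 1 := by
      intro c hc
      obtain ⟨s, hs, rfl⟩ := Finset.mem_image.1 hc
      exact hclp s hs
    have h3 := Nat.card_le_card_of_injective
      (fun c : {c // c ∈ S.image cl} => (⟨c.1, h1 c.1 c.2⟩ : {c : ClassGroup (𝓞 K) // c ^ p = 1}))
      (fun c c' h => by
        have h4 := congrArg (fun z : {c : ClassGroup (𝓞 K) // c ^ p = 1} => z.1) h
        exact Subtype.ext h4)
    rwa [Nat.card_eq_fintype_card, Fintype.card_coe] at h3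
  have himg' : ((S.image cl).card : ℝ) ≤ Nat.card {c : ClassGroup (𝓞 K) // c ^ p = 1} := by
    exact_mod_cast himg
  rw [← hC]
  calc (S.card : ℝ) ≤ (S.image cl).card * (2 + 12 * C) := hcard
    _ ≤ Nat.card {c : ClassGroup (𝓞 K) // c ^ p = 1} * (100 * (1 + C)) := by
        refine mul_le_mul himg' (by linarith) (by linarith) (Nat.cast_nonneg _)
    _ = _ := by ring

end Pool.Agent.FM
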